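import Pool.Agent.TH653.Sing.Class

/-!
# Vanishing above the middle dimension for reflection manifolds with boundary, in all dimensions

`Cls n G`: the flag complex of the graph `G` belongs to the class `K_n`, which contains the order complexes of the
graded posets of length `n` that are Gorenstein* over `F_2` (for example all barycentric subdivisions of
triangulated `(n-1)`-spheres) and is closed under deleting vertices, deleting edges, subdividing edges and
suspensions (which raise `n` by one); for even `n` it contains every finite flag complex all of whose vertex links
lie in `K_{n-1}`.

For every such complex the right-angled Coxeter group `W G` has vanishing `ℓ²`-homology in all degrees above `n/2`.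
If `G` is a full subcomplex of a flag triangulated `(n-1)`-sphere `L` in `K_n`, then a regular neighbourhood of the
Davis complex of `W G` in the Davis manifold of `L`, divided by a torsion-free subgroup of finite index of `W G`, is
a compact aspherical `n`-manifold with boundary.
-/

namespace Pool.Agent.Results.MP_8fe54c_gt.AboveMiddle

open Pool.Agent.W907.SG Pool.Agent.TH653.Sing

/-- For a flag complex in the class `K_n` the Davis complex of the right-angled Coxeter group carries no nonzero
`ℓ²` harmonic `i`-chains in the degrees `i > n / 2`. -/
theorem result : ∀ (n : ℕ) (V : Type) [Fintype V] [LinearOrder V] (G : SimpleGraph V), Cls n G →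
    ∀ i : ℕ, n < 2 * i → L2Van G i := by
  intro n V _ _ G h i hi
  exact cls_above h i hi

end Pool.Agent.Results.MP_8fe54c_gt.AboveMiddle
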